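import Pool.Agent.Helper73.HV.Stmts

/-!
# Module I of MP_a2630c_HV: isotropic position and linear invariance
-/

set_option autoImplicit false

open MeasureTheory Set Metric Real
open scoped RealInnerProductSpace ENNReal
open Pool.Agent.Helper16.Buoy (E)

namespace Pool.Agent.Helper35.HV

open Pool.Agent.Helper73.HV

variable {n : ℕ}

theorem integrable_K {K : Set (E n)} (hK : IsCompact K) {f : E n → ℝ} (hf : Continuous f) :
    IntegrableOn f K := hf.continuousOn.integrableOn_compact hK

/-- change of variables -/
theorem integral_image (T : E n ≃L[ℝ] E n) {K : Set (E n)} (hK : IsCompact K) (g : E n → ℝ) :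
    ∫ y in T '' K, g y = |(T : E n →L[ℝ] E n).det| * ∫ x in K, g (T x) := by
  have h := integral_image_eq_integral_abs_det_fderiv_smul (μ := volume) (s := K)
    (f := fun x => T x) (f' := fun _ => (T : E n →L[ℝ] E n)) hK.measurableSet
    (fun x _ => T.hasFDerivAt.hasFDerivWithinAt) T.injective.injOn g
  have e : (fun x => T x) '' K = T '' K := rfl
  rw [e] at h
  rw [h, ← integral_const_mul]
  simp only [smul_eq_mul]

theorem det_ne (T : E n ≃L[ℝ] E n) : (T : E n →L[ℝ] E n).det ≠ 0 := by
  have h := LinearEquiv.isUnit_det' (T.toLinearEquiv)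
  exact h.ne_zero

theorem abs_det_pos (T : E n ≃L[ℝ] E n) : 0 < |(T : E n →L[ℝ] E n).det| := abs_pos.2 (det_ne T)

theorem sbody_image {K : Set (E n)} (hK : SBody K) (T : E n ≃L[ℝ] E n) : SBody (T '' K) where
  conv := hK.conv.linear_image (T : E n →ₗ[ℝ] E n)
  comp := hK.comp.image T.continuous
  int := by
    have h := T.toHomeomorph.image_interior K
    have h2 : (T.toHomeomorph '' interior K).Nonempty := hK.int.image _
    rw [h] at h2
    exact h2
  symm := by
    rintro _ ⟨x, hx, rfl⟩
    exact ⟨-x, hK.symm x hx, by rw [map_neg]⟩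

/-- The second moment is positive definite. -/
theorem quad_pos {K : Set (E n)} (hK : SBody K) (u : E n) (hu : u ≠ 0) :
    0 < ∫ x in K, (inner ℝ u x) ^ 2 := by
  have hc : Continuous (fun x : E n => (inner ℝ u x) ^ 2) := by fun_prop
  rw [setIntegral_pos_iff_support_of_nonneg_ae]
  · have hopen : IsOpen (Function.support (fun x : E n => (inner ℝ u x) ^ 2) ∩ interior K) :=
      hc.isOpen_support.inter isOpen_interior
    have hne : (Function.support (fun x : E n => (inner ℝ u x) ^ 2) ∩ interior K).Nonempty := by
      obtain ⟨x, hx⟩ := hK.int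
      by_cases h0 : inner ℝ u x = 0
      · -- move in direction `u`
        have hcont : Filter.Tendsto (fun t : ℝ => x + t • u) (nhds 0) (nhds x) := by
          have : Continuous (fun t : ℝ => x + t • u) := by fun_prop
          have h1 := this.tendsto 0
          simpa using h1
        have h2 : ∀ᶠ t : ℝ in nhds 0, x + t • u ∈ interior K :=
          hcont (isOpen_interior.mem_nhds hx)
        obtain ⟨ε, hε, hball⟩ := Metric.eventually_nhds_iff_ball.1 h2
        refine ⟨x + (ε / 2) • u, ?_, hball (ε / 2) (by
          rw [Metric.mem_ball, dist_zero_right, Real.norm_of_nonneg (by positivity)]; linarith)⟩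
        rw [Function.mem_support, inner_add_right, h0, inner_smul_right,
          real_inner_self_eq_norm_sq, zero_add]
        have : ‖u‖ ≠ 0 := norm_ne_zero_iff.2 hu
        positivity
      · exact ⟨x, by rw [Function.mem_support]; exact pow_ne_zero 2 h0, hx⟩
    exact lt_of_lt_of_le (hopen.measure_pos volume hne)
      (measure_mono (inter_subset_inter_right _ interior_subset))
  · exact Filter.Eventually.of_forall fun x => sq_nonneg _
  · exact integrable_K hK.comp hc

/-- second moment form -/
noncomputable def QQ (K : Set (E n)) (hK : IsCompact K) : LinearMap.BilinForm ℝ (E n) :=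
  LinearMap.mk₂ ℝ (fun u v => ∫ x in K, inner ℝ u x * inner ℝ v x)
    (by
      intro u u' v
      rw [← integral_add (integrable_K hK (by fun_prop)) (integrable_K hK (by fun_prop))]
      congr 1
      funext x
      rw [inner_add_left]
      ring)
    (by
      intro c u v
      rw [smul_eq_mul, ← integral_const_mul]
      congr 1
      funext x
      rw [real_inner_smul_left]
      ring)
    (by
      intro u v v'
      rw [← integral_add (integrable_K hK (by fun_prop)) (integrable_K hK (by fun_prop))]
      congr 1
      funext x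
      rw [inner_add_left]
      ring)
    (by
      intro c u v
      rw [smul_eq_mul, ← integral_const_mul]
      congr 1
      funext x
      rw [real_inner_smul_left]
      ring)

theorem QQ_apply (K : Set (E n)) (hK : IsCompact K) (u v : E n) :
    QQ K hK u v = ∫ x in K, inner ℝ u x * inner ℝ v x := rfl

theorem QQ_self (K : Set (E n)) (hK : IsCompact K) (u : E n) :
    QQ K hK u u = ∫ x in K, (inner ℝ u x) ^ 2 := by
  rw [QQ_apply]
  congr 1
  funext x
  ring

theorem QQ_symm (K : Set (E n)) (hK : IsCompact K) : LinearMap.IsSymm (QQ K hK) :=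
  ⟨fun u v => by
    change QQ K hK u v = QQ K hK v u
    rw [QQ_apply, QQ_apply]
    congr 1
    funext x
    ring⟩

theorem exists_iso : S_exists_iso := by
  intro n K hK
  obtain ⟨v0, hv0⟩ := LinearMap.BilinForm.exists_orthogonal_basis (QQ_symm K hK.comp)
  have hfr : Module.finrank ℝ (E n) = n := by simp
  set v : Module.Basis (Fin n) ℝ (E n) := v0.reindex (finCongr hfr) with hv
  have hvo : ∀ i j, i ≠ j → QQ K hK.comp (v i) (v j) = 0 := by
    intro i j hij
    rw [hv, Module.Basis.reindex_apply, Module.Basis.reindex_apply]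
    exact hv0 (by simpa using hij)
  set q : Fin n → ℝ := fun i => QQ K hK.comp (v i) (v i) with hq
  have hqpos : ∀ i, 0 < q i := by
    intro i
    rw [hq]
    simp only
    rw [QQ_self]
    exact quad_pos hK (v i) (v.ne_zero i)
  -- the map `S`
  let S : E n →ₗ[ℝ] E n :=
    { toFun := fun u => ∑ i, (u i / √(q i)) • v i
      map_add' := by
        intro u u'
        rw [← Finset.sum_add_distrib]
        refine Finset.sum_congr rfl fun i _ => ?_
        rw [← add_smul, PiLp.add_apply, add_div]
      map_smul' := by
        intro c u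
        rw [RingHom.id_apply, Finset.smul_sum]
        refine Finset.sum_congr rfl fun i _ => ?_
        rw [smul_smul, PiLp.smul_apply, smul_eq_mul, mul_div_assoc] }
  have hS : ∀ u, S u = ∑ i, (u i / √(q i)) • v i := fun u => rfl
  have hQS : ∀ u, QQ K hK.comp (S u) (S u) = ‖u‖ ^ 2 := by
    intro u
    have hbil : QQ K hK.comp (S u) (S u) =
        ∑ i, (QQ K hK.comp ((u i / √(q i)) • v i)) (∑ j, (u j / √(q j)) • v j) := by
      rw [hS]
      conv_lhs => rw [map_sum (QQ K hK.comp) (fun i => (u i / √(q i)) • v i) Finset.univ]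
      rw [LinearMap.sum_apply]
    rw [hbil]
    have h1 : ∀ i, (QQ K hK.comp ((u i / √(q i)) • v i)) (∑ j, (u j / √(q j)) • v j) = u i ^ 2 := by
      intro i
      rw [map_sum, Finset.sum_eq_single i]
      · rw [map_smul, map_smul, LinearMap.smul_apply, smul_eq_mul, smul_eq_mul]
        have h2 : QQ K hK.comp (v i) (v i) = q i := rfl
        rw [h2]
        have h3 : √(q i) * √(q i) = q i := Real.mul_self_sqrt (hqpos i).le
        have h4 : √(q i) ≠ 0 := (Real.sqrt_pos.2 (hqpos i)).ne'
        field_simp
        rw [sq (√(q i)), h3]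
      · intro j _ hji
        rw [map_smul, map_smul, LinearMap.smul_apply, hvo i j (Ne.symm hji)]
        simp
      · intro h
        exact absurd (Finset.mem_univ _) h
    rw [Finset.sum_congr rfl fun i _ => h1 i, EuclideanSpace.norm_sq_eq]
    refine Finset.sum_congr rfl fun i _ => ?_
    rw [Real.norm_eq_abs, sq_abs]
  have hSinj : Function.Injective S := by
    rw [injective_iff_map_eq_zero]
    intro u hu
    have := hQS u
    rw [hu] at this
    simp only [map_zero] at this
    have h2 : ‖u‖ = 0 := by
      have := this.symm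
      exact pow_eq_zero_iff (two_ne_zero) |>.1 this
    exact norm_eq_zero.1 h2
  have hSsurj : Function.Surjective S := LinearMap.injective_iff_surjective.1 hSinj
  set T0 : E n →ₗ[ℝ] E n := LinearMap.adjoint S with hT0
  have hT0ip : ∀ u x, inner ℝ u (T0 x) = inner ℝ (S u) x := by
    intro u x
    rw [hT0, LinearMap.adjoint_inner_right]
  have hT0inj : Function.Injective T0 := by
    rw [injective_iff_map_eq_zero]
    intro x hx
    obtain ⟨u, hu⟩ := hSsurj x
    have := hT0ip u x
    rw [hx, inner_zero_right, hu, real_inner_self_eq_norm_sq] at this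
    have h2 : ‖x‖ = 0 := pow_eq_zero_iff (two_ne_zero) |>.1 this.symm
    exact norm_eq_zero.1 h2
  set T : E n ≃L[ℝ] E n := (LinearEquiv.ofInjectiveEndo T0 hT0inj).toContinuousLinearEquiv with hT
  have hTx : ∀ x, T x = T0 x := fun x => rfl
  refine ⟨T, |(T : E n →L[ℝ] E n).det|, abs_det_pos T, ?_⟩
  intro u
  rw [integral_image T hK.comp (fun x => (inner ℝ u x) ^ 2)]
  congr 1
  have h5 : ∀ x, (inner ℝ u (T x)) ^ 2 = (inner ℝ (S u) x) ^ 2 := fun x => by
    rw [hTx, hT0ip]
  simp only [h5]
  rw [← QQ_self K hK.comp, hQS]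

theorem eqn_image : S_eqn_image := by
  intro n K hK T c hc heq
  refine ⟨sbody_image hK T, c / |(T : E n →L[ℝ] E n).det|, div_pos hc (abs_det_pos T), ?_⟩
  intro u
  set Ts : E n →ₗ[ℝ] E n := LinearMap.adjoint (T : E n →ₗ[ℝ] E n) with hTs
  have hip : ∀ x, inner ℝ u (T x) = inner ℝ (Ts u) x := by
    intro x
    rw [hTs, LinearMap.adjoint_inner_left]
    rfl
  have h1 : supp (T '' K) u = supp K (Ts u) := by
    unfold supp
    rw [image_image]
    congr 1
    ext y
    constructor
    · rintro ⟨x, hx, rfl⟩
      exact ⟨x, hx, (hip x).symm⟩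
    · rintro ⟨x, hx, rfl⟩
      exact ⟨x, hx, hip x⟩
  rw [h1, heq, integral_image T hK.comp (fun x => |inner ℝ u x|)]
  simp only [hip]
  have h2 : |(T : E n →L[ℝ] E n).det| ≠ 0 := (abs_det_pos T).ne'
  field_simp

end Pool.Agent.Helper35.HV
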